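import Pool.Agent.Y557.U.TupSub
import Pool.Agent.Y954.U557.BMG

/-!
# The n-term abc conjecture for almost all tuples on all split rational curves at once

Consider all curves `t ↦ (P 0 (t) : ... : P (n-1) (t))` of degree `D`, the `P i` being polynomials
with integral coefficients of absolute value at most `X ^ η`, with rational zeros only, without a
common zero, with sum zero and without vanishing proper subsums, which meet the coordinate
hyperplanes in `q` points. The admissible tuples on these curves, of all sizes, are ordered by their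
radical. One exceptional set, smaller by a power of `X` than the set of the admissible tuples with
radical at most `X` on each single curve, serves all curves: all other tuples satisfy
`max |z i| ≤ rad ^ M` with an exponent `M` which depends on `n` only
(`M = (n - 1) (n - 2) max (1, n - 3) / 2`, which is `1` for `n = 3` and `3` for `n = 4`), and even
`max |z i| ≤ c rad ^ M` for every `M > D / q`.
-/

set_option autoImplicit false

namespace Pool.Agent.Results.MP_a95293_nt.AllRationalCurvesAtOnce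

open Polynomial

/-- the values of the polynomials `P i` at a point of the projective line over `ℚ`; at infinity,
which is `none`, their coefficients at `t ^ D` -/
noncomputable def value {n : ℕ} (D : ℕ) (P : Fin n → ℤ[X]) : Option ℚ → Fin n → ℚ
  | some t => fun i => aeval t (P i)
  | none => fun i => (P i).coeff D

open Classical in
/-- the number of the different points of the projective line over `ℚ` at which the curve
`t ↦ (P 0 (t) : ... : P (n-1) (t))` of degree `D` meets the coordinate hyperplanes (infinity is one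
of them if some `P i` has degree less than `D`) -/
noncomputable def zeros {n : ℕ} (D : ℕ) (P : Fin n → ℤ[X]) : ℕ :=
  (∏ i, (P i).map (Int.castRingHom ℚ)).roots.toFinset.card +
    if ∃ i, (P i).natDegree < D then 1 else 0

/-- nonzero polynomials over `ℤ` without a common zero, of maximal degree `D`, with coefficients of
absolute value at most `H`, all of whose zeros are rational, with sum zero and without a vanishing
proper subsum, which give a curve meeting the coordinate hyperplanes in `q` points -/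
structure Curve (n D q : ℕ) (H : ℝ) (P : Fin n → ℤ[X]) : Prop where
  ne_zero : ∀ i, P i ≠ 0
  splits : ∀ i, ((P i).map (Int.castRingHom ℚ)).Splits
  coprime : ∃ u : Fin n → ℚ[X], ∑ i, u i * (P i).map (Int.castRingHom ℚ) = 1
  sum_zero : ∑ i, P i = 0
  subsums : ∀ s : Finset (Fin n), s.Nonempty → s ≠ Finset.univ → ∑ i ∈ s, P i ≠ 0
  degree_le : ∀ i, (P i).natDegree ≤ D
  degree_eq : ∃ i, (P i).natDegree = D
  points : zeros D P = q
  small : ∀ i k, |((P i).coeff k : ℝ)| ≤ H

/-- the admissible tuples of the problem -/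
def Admissible {n : ℕ} (z : Fin n → ℤ) : Prop :=
  (∀ d : ℤ, (∀ i, d ∣ z i) → IsUnit d) ∧ ∑ i, z i = 0 ∧
    ∀ s : Finset (Fin n), s.Nonempty → s ≠ Finset.univ → ∑ i ∈ s, z i ≠ 0

/-- the radical of the product of the coordinates -/
def rad {n : ℕ} (z : Fin n → ℤ) : ℕ := ∏ p ∈ (∏ i, z i).natAbs.primeFactors, p

/-- the admissible tuples which are proportional to `(P 0 (t), ..., P (n-1) (t))` for some point
`t` of the projective line over `ℚ` -/
def OnCurve {n : ℕ} (D : ℕ) (P : Fin n → ℤ[X]) : Set (Fin n → ℤ) :=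
  {z | Admissible z ∧ ∃ (t : Option ℚ) (r : ℚ), ∀ i, (z i : ℚ) = r * value D P t i}

/-- those with radical at most `X`; there is no condition on their size -/
def Tuples {n : ℕ} (D : ℕ) (P : Fin n → ℤ[X]) (X : ℝ) : Set (Fin n → ℤ) :=
  {z | z ∈ OnCurve D P ∧ (rad z : ℝ) ≤ X}

/-- the union of these sets over all curves with coefficients at most `X ^ η` -/
def AllTuples (n D q : ℕ) (η X : ℝ) : Set (Fin n → ℤ) :=
  {z | ∃ P : Fin n → ℤ[X], Curve n D q (X ^ η) P ∧ z ∈ Tuples D P X}

/-- the tuples in this union which violate `max |z i| ≤ c rad ^ M` -/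
def Exceptions (n D q : ℕ) (η M c X : ℝ) : Set (Fin n → ℤ) :=
  {z | z ∈ AllTuples n D q η X ∧ ∃ i, c * (rad z : ℝ) ^ M < |(z i : ℝ)|}

/-- the exponent `(n - 1) (n - 2) max (1, n - 3) / 2` -/
noncomputable def exponent (n : ℕ) : ℝ := (((n - 1) * (n - 2) * max 1 (n - 3) : ℕ) : ℝ) / 2

open Pool.Agent.Y557.U

variable {n : ℕ}

theorem value_eq (D : ℕ) (P : Fin n → ℤ[X]) : value D P = co D (mq P) := by
  funext t
  cases t with
  | none =>
    funext i
    exact (mq_coeff P i D).symm
  | some t =>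
    funext i
    show aeval t (P i) = ((P i).map (Int.castRingHom ℚ)).eval t
    rw [eval_map]
    rfl

theorem curve_two {D q : ℕ} {H : ℝ} {P : Fin n → ℤ[X]} (h : Curve n D q H P) : 2 ≤ n := by
  obtain ⟨i, hi⟩ := h.degree_eq
  by_contra hcon
  have h1 : n = 1 := by have := i.2; omega
  subst h1
  have h2 := h.sum_zero
  rw [Fin.sum_univ_one] at h2
  exact h.ne_zero 0 h2

theorem curve_cv {D q : ℕ} {H : ℝ} {P : Fin n → ℤ[X]} (h : Curve n D q H P) : Cv n D q H P :=
  ⟨h.ne_zero, h.splits, h.coprime, h.degree_le, h.degree_eq, h.points, h.small⟩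

theorem sum_value {D : ℕ} {P : Fin n → ℤ[X]} (h : ∑ i, P i = 0) (t : Option ℚ) :
    ∑ i, value D P t i = 0 := by
  cases t with
  | none =>
    have h1 := congrArg (fun p : ℤ[X] => ((p.coeff D : ℤ) : ℚ)) h
    simp only [finsetSum_coeff, coeff_zero, Int.cast_zero] at h1
    push_cast at h1
    exact h1
  | some t =>
    have h1 := congrArg (aeval t) h
    rw [map_sum, map_zero] at h1
    exact h1

theorem onCurve_iff {D : ℕ} {P : Fin n → ℤ[X]} (hn : 2 ≤ n) (hs : ∑ i, P i = 0)
    (z : Fin n → ℤ) : z ∈ OnCurve D P ↔ z ∈ OnC D P ∧ NoVan z := by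
  constructor
  · rintro ⟨⟨h1, -, h3⟩, h4⟩
    refine ⟨⟨fun i => ?_, h1, ?_⟩, h3⟩
    · have h5 := h3 {i} (Finset.singleton_nonempty i) (by
        intro h6
        have h7 := congrArg Finset.card h6
        rw [Finset.card_singleton, Finset.card_univ, Fintype.card_fin] at h7
        omega)
      rwa [Finset.sum_singleton] at h5
    · rw [value_eq] at h4
      exact h4
  · rintro ⟨⟨-, h2, t, r, h3⟩, h4⟩
    have h3' : ∀ i, (z i : ℚ) = r * value D P t i := by
      rw [value_eq]
      exact h3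
    refine ⟨⟨h2, ?_, h4⟩, t, r, h3'⟩
    have h5 : ((∑ i, z i : ℤ) : ℚ) = 0 := by
      push_cast
      rw [Finset.sum_congr rfl fun i _ => h3' i, ← Finset.mul_sum, sum_value hs, mul_zero]
    exact_mod_cast h5

theorem tuples_eq {D q : ℕ} {H : ℝ} {P : Fin n → ℤ[X]} (h : Curve n D q H P) (X : ℝ) :
    Tuples D P X = Tn D P X := by
  ext z
  unfold Tuples Tn Tu
  simp only [Set.mem_ofPred_eq]
  rw [onCurve_iff (curve_two h) h.sum_zero z]
  exact ⟨fun ⟨⟨a, b⟩, c⟩ => ⟨⟨a, c⟩, b⟩, fun ⟨⟨a, c⟩, b⟩ => ⟨⟨a, b⟩, c⟩⟩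

theorem allTuples_sub (D q : ℕ) (η X : ℝ) : AllTuples n D q η X ⊆ ATu n D q η X := by
  rintro z ⟨P, hP, hz⟩
  rw [tuples_eq hP] at hz
  exact ⟨P, curve_cv hP, hz.1⟩

theorem exceptions_sub (D q : ℕ) (η M c X : ℝ) :
    Exceptions n D q η M c X ⊆ ETu n D q η M c X := by
  rintro z ⟨⟨P, hP, hz⟩, i, hi⟩
  rw [tuples_eq hP] at hz
  exact ⟨P, curve_cv hP, hz.1, i, hi⟩

/-- **The n-term abc conjecture on all split rational curves at once.** Let `D ≥ 1` and `q ≥ 3`.
(0) If there is a curve of this kind, then `n ≥ 3` and `D / q < exponent n`.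
(1) For every `δ > 0` there is `η > 0` such that the number of the admissible tuples with radical
at most `X`, of whatever size, on all curves with coefficients at most `X ^ η` together is at most
`C X ^ (2 / q + δ)`, and the number of those on each single one is at least `X ^ (2 / q - δ)` for
large `X`.
(2) For every `M > D / q`, for example `M = exponent n`, there are `η, ν > 0` such that for every
`c > 0` at most `C X ^ (2 / q - ν)` of all these tuples, for large `X` at most `X ^ (-ν)` times the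
number of the admissible tuples on each single curve, violate `max |z i| ≤ c rad ^ M`.
(3) All admissible tuples on a curve with coefficients at most `H` satisfy
`rad ^ D ≤ (C H) ^ C (max |z i|) ^ q`. -/
theorem result (n D q : ℕ) (hD : 1 ≤ D) (hq : 3 ≤ q) :
    (∀ (H : ℝ) (P : Fin n → ℤ[X]), Curve n D q H P → 3 ≤ n ∧ (D : ℝ) / q < exponent n) ∧
    (∀ δ : ℝ, 0 < δ → ∃ η : ℝ, 0 < η ∧
      (∃ C : ℝ, ∀ X : ℝ, 1 ≤ X → (AllTuples n D q η X).Finite ∧
        ((AllTuples n D q η X).ncard : ℝ) ≤ C * X ^ (2 / (q : ℝ) + δ)) ∧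
      ∃ X₀ : ℝ, ∀ X : ℝ, X₀ ≤ X → ∀ P : Fin n → ℤ[X], Curve n D q (X ^ η) P →
        X ^ (2 / (q : ℝ) - δ) ≤ ((Tuples D P X).ncard : ℝ)) ∧
    (∀ M : ℝ, (D : ℝ) / q < M → ∃ η ν : ℝ, 0 < η ∧ 0 < ν ∧ ∀ c : ℝ, 0 < c →
      (∃ C : ℝ, ∀ X : ℝ, 1 ≤ X → (Exceptions n D q η M c X).Finite ∧
        ((Exceptions n D q η M c X).ncard : ℝ) ≤ C * X ^ (2 / (q : ℝ) - ν)) ∧
      ∃ X₀ : ℝ, ∀ X : ℝ, X₀ ≤ X → ∀ P : Fin n → ℤ[X], Curve n D q (X ^ η) P →
        ((Exceptions n D q η M c X).ncard : ℝ) ≤ X ^ (-ν) * ((Tuples D P X).ncard : ℝ)) ∧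
    ∃ C : ℝ, 0 < C ∧ ∀ (H : ℝ) (P : Fin n → ℤ[X]), Curve n D q H P → ∀ z ∈ OnCurve D P,
      ∀ b : ℝ, (∀ i, |(z i : ℝ)| ≤ b) → (rad z : ℝ) ^ D ≤ (C * H) ^ C * b ^ q := by
  obtain ⟨h1, h2⟩ := tup_main_sub n D q hD hq
  obtain ⟨-, -, C3, hC3, h3⟩ := tup_main n D q hD hq
  refine ⟨fun H P hP => ?_, fun δ hδ => ?_, fun M hM => ?_, ?_⟩
  · have hcv := curve_cv hP
    obtain ⟨i, hi⟩ := hcv.deg'
    have hnz : Pool.Agent.Y557.NF.nz (mq P) ≤ q := by
      rw [← hcv.card]
      unfold zr Pool.Agent.Y557.NF.nz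
      refine add_le_add (le_of_eq (congrArg Finset.card (Finset.ext fun r => ?_))) ?_
      · exact (@Multiset.mem_toFinset _ (_) _ _).trans (@Multiset.mem_toFinset _ (_) _ _).symm
      · by_cases h4 : Pool.Agent.Y557.NF.Unequal (mq P)
        · rw [if_pos h4]
          obtain ⟨a, b, hab⟩ := h4
          rw [mq_degree, mq_degree] at hab
          rw [if_pos ⟨a, lt_of_lt_of_le hab (hcv.deg b)⟩]
        · rw [if_neg h4]
          exact Nat.zero_le _
    have h4 := Pool.Agent.Y954.U557.bmg_holds ℚ n (mq P) D (fun i => mq_ne hP.ne_zero i) hP.splits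
      (Pool.Agent.Y557.NF.common hP.coprime) (by
        have h6 := congrArg (Polynomial.map (Int.castRingHom ℚ)) hP.sum_zero
        rw [Polynomial.map_sum, Polynomial.map_zero] at h6
        exact h6) (fun s hs1 hs2 h6 => hP.subsums s hs1 hs2 (by
          have h7 : (∑ i ∈ s, P i).map (Int.castRingHom ℚ) = 0 := by
            rw [Polynomial.map_sum]
            exact h6
          exact (Polynomial.map_eq_zero_iff (Int.castRingHom ℚ).injective_int).1 h7))
      (fun i => by rw [mq_degree]; exact hcv.deg i) ⟨i, by rw [mq_degree]; exact hi⟩ hD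
    have h5 := Nat.mul_le_mul_left ((n - 1) * (n - 2) * max 1 (n - 3)) hnz
    have h6 : 0 < (n - 1) * (n - 2) * max 1 (n - 3) := by
      by_contra hcon
      have h7 : (n - 1) * (n - 2) * max 1 (n - 3) = 0 := by omega
      rw [h7] at h4 h5
      omega
    refine ⟨?_, ?_⟩
    · by_contra hcon
      have h7 : n - 2 = 0 := by omega
      rw [h7] at h6
      simp at h6
    · unfold exponent
      have hq0 : (0 : ℝ) < q := by exact_mod_cast (by omega : 0 < q)
      rw [div_lt_div_iff₀ hq0 (by norm_num)]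
      have h8 : D * 2 < (n - 1) * (n - 2) * max 1 (n - 3) * q := by omega
      exact_mod_cast h8
  · obtain ⟨η, hη, ⟨C, hC⟩, X0, hX0⟩ := h1 δ hδ
    refine ⟨η, hη, ⟨C, fun X hX => ?_⟩, X0, fun X hX P hP => ?_⟩
    · obtain ⟨h4, h5⟩ := hC X hX
      have h6 := allTuples_sub (n := n) D q η X
      refine ⟨h4.subset h6, le_trans ?_ h5⟩
      exact_mod_cast Set.ncard_le_ncard h6 h4
    · rw [tuples_eq hP]
      exact hX0 X hX P (curve_cv hP) hP.subsums
  · obtain ⟨η, ν, hη, hν, h4⟩ := h2 M hM
    refine ⟨η, ν, hη, hν, fun c hc => ?_⟩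
    obtain ⟨⟨C, hC⟩, X0, hX0⟩ := h4 c hc
    refine ⟨⟨C, fun X hX => ?_⟩, max 1 X0, fun X hX P hP => ?_⟩
    · obtain ⟨h5, h6⟩ := hC X hX
      have h7 := exceptions_sub (n := n) D q η M c X
      refine ⟨h5.subset h7, le_trans ?_ h6⟩
      exact_mod_cast Set.ncard_le_ncard h7 h5
    · have k1 : 1 ≤ X := (le_max_left _ _).trans hX
      obtain ⟨h5, -⟩ := hC X k1
      have h7 := exceptions_sub (n := n) D q η M c X
      rw [tuples_eq hP]
      refine le_trans ?_ (hX0 X ((le_max_right _ _).trans hX) P (curve_cv hP) hP.subsums)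
      exact_mod_cast Set.ncard_le_ncard h7 h5
  · refine ⟨Real.exp 1 + C3, by positivity, fun H P hP z hz b hb => ?_⟩
    have hz' := ((onCurve_iff (curve_two hP) hP.sum_zero z).1 hz).1
    have hcv := curve_cv hP
    have hH := hcv.one_le
    have h4 := h3 H P hcv z hz'
    have hm := mz_pos' hcv.pos hz'.1
    have hmb := mz_le' hcv.pos hb
    have hr : 0 < (rad z : ℝ) := Pool.Agent.Y557.NF.rz_pos z
    have h5 : (rad z : ℝ) ^ D ≤ Real.exp (C3 * (Real.log H + 1)) *
        (Pool.Agent.Y557.NF.mz z) ^ q := by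
      have e1 : (rad z : ℝ) ^ D = Real.exp (D * Real.log (rad z)) := by
        rw [← Real.log_pow, Real.exp_log (pow_pos hr D)]
      have e2 : (Pool.Agent.Y557.NF.mz z) ^ q =
          Real.exp (q * Real.log (Pool.Agent.Y557.NF.mz z)) := by
        rw [← Real.log_pow, Real.exp_log (pow_pos hm q)]
      rw [e1, e2, ← Real.exp_add]
      refine Real.exp_le_exp.2 (h4.trans (le_of_eq ?_))
      ring
    have h6 : (Pool.Agent.Y557.NF.mz z) ^ q ≤ b ^ q := pow_le_pow_left₀ hm.le hmb q
    have h7 : Real.exp (C3 * (Real.log H + 1)) ≤ ((Real.exp 1 + C3) * H) ^ (Real.exp 1 + C3) := by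
      have hH0 : 0 < H := by linarith
      have e3 : Real.exp (C3 * (Real.log H + 1)) = (Real.exp 1 * H) ^ C3 := by
        rw [Real.rpow_def_of_pos (by positivity), Real.log_mul (Real.exp_pos 1).ne' hH0.ne',
          Real.log_exp]
        congr 1
        ring
      have he : (1 : ℝ) ≤ Real.exp 1 := Real.one_le_exp zero_le_one
      have h8 : Real.exp 1 * H ≤ (Real.exp 1 + C3) * H :=
        mul_le_mul_of_nonneg_right (by linarith) hH0.le
      have h9 : 1 ≤ (Real.exp 1 + C3) * H := by nlinarith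
      rw [e3]
      exact (Real.rpow_le_rpow (by positivity) h8 hC3).trans
        (Real.rpow_le_rpow_of_exponent_le h9 (by linarith [Real.exp_pos 1]))
    calc (rad z : ℝ) ^ D ≤ Real.exp (C3 * (Real.log H + 1)) *
          (Pool.Agent.Y557.NF.mz z) ^ q := h5
      _ ≤ ((Real.exp 1 + C3) * H) ^ (Real.exp 1 + C3) * b ^ q :=
          mul_le_mul h7 h6 (pow_nonneg hm.le _) (by positivity)

end Pool.Agent.Results.MP_a95293_nt.AllRationalCurvesAtOnce
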