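import Mathlib
import Pool.Agent.Y594.NT.ThrFin

/-! The `n`-term abc conjecture for almost all tuples of polynomial height: order of magnitude of
the number of all tuples, a power saving for the exceptions to every exponent `M > 1 / n`, and the
exact exponent of the number of exceptions for `M` near `1 / n`. -/

set_option autoImplicit false

namespace Pool.Agent.Results.MP_a95293_nt.ExactExponentOfExceptions

open Finset

/-- the tuples of the problem: coprime integers with sum zero and no vanishing proper subsum -/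
def Admissible {n : ℕ} (x : Fin n → ℤ) : Prop :=
  univ.gcd x = 1 ∧ ∑ i, x i = 0 ∧
    ∀ I : Finset (Fin n), I.Nonempty → I ≠ univ → ∑ i ∈ I, x i ≠ 0

/-- the product of the primes that divide `a` -/
def rad (a : ℤ) : ℕ := ∏ p ∈ a.natAbs.primeFactors, p

/-- `max |x_i|` -/
def height {n : ℕ} (x : Fin n → ℤ) : ℕ := univ.sup fun i => (x i).natAbs

/-- the admissible tuples with `max |x_i| ≤ X ^ A` for which the product of the radicals of the
coordinates is at most `X` -/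
def Tuples (n : ℕ) (A X : ℝ) : Set (Fin n → ℤ) :=
  {x | Admissible x ∧ (height x : ℝ) ≤ X ^ A ∧ ∏ i, (rad (x i) : ℝ) ≤ X}

/-- the tuples among them that violate `max |x_i| ≤ rad (x_1 ⋯ x_n) ^ M` -/
def Exceptions (n : ℕ) (A M X : ℝ) : Set (Fin n → ℤ) :=
  {x ∈ Tuples n A X | (rad (∏ i, x i) : ℝ) ^ M < height x}

theorem ne_zero {n : ℕ} (hn : 3 ≤ n) {x : Fin n → ℤ} (hx : Admissible x) (i : Fin n) :
    x i ≠ 0 := by
  have h := hx.2.2 {i} (singleton_nonempty i) (by
    intro h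
    have h1 := congrArg Finset.card h
    rw [card_singleton, card_univ, Fintype.card_fin] at h1
    omega)
  simpa using h

theorem abs_le_height {n : ℕ} (x : Fin n → ℤ) (i : Fin n) : (x i).natAbs ≤ height x :=
  le_sup (f := fun i => (x i).natAbs) (mem_univ i)

theorem rad_prod {n : ℕ} (x : Fin n → ℤ) :
    rad (∏ i, x i) = Pool.Agent.H785R2.ABC.rad (∏ i, (x i).natAbs) := by
  unfold rad Pool.Agent.H785R2.ABC.rad
  rw [← Int.natAbsHom_apply, map_prod]
  rfl

theorem adm {n : ℕ} (hn : 3 ≤ n) {A A' X : ℝ} (hX : 1 ≤ X) (hA : A ≤ A') {x : Fin n → ℤ}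
    (hx : x ∈ Tuples n A X) : Pool.Agent.Y594.NT.Adm A' X x := by
  obtain ⟨h1, h2, h3⟩ := hx
  refine ⟨h1.1, h1.2.1, ne_zero hn h1, fun i => ?_, h3⟩
  calc ((x i).natAbs : ℝ) ≤ (height x : ℝ) := by exact_mod_cast abs_le_height x i
    _ ≤ X ^ A := h2
    _ ≤ X ^ A' := Real.rpow_le_rpow_of_exponent_le hX hA

/-- positive coordinates except the last: no vanishing subsum -/
theorem admissible_of_pos {m : ℕ} {x : Fin (m + 2) → ℤ} (h1 : univ.gcd x = 1)
    (h2 : ∑ i, x i = 0) (h3 : ∀ j : Fin (m + 1), 0 < x j.castSucc) : Admissible x := by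
  classical
  refine ⟨h1, h2, fun I hI hI2 => ?_⟩
  have hpos : ∀ J : Finset (Fin (m + 2)), J.Nonempty → Fin.last (m + 1) ∉ J →
      0 < ∑ i ∈ J, x i := by
    intro J hJ hl
    apply sum_pos _ hJ
    intro i hi
    obtain ⟨j, rfl⟩ | h := (Fin.eq_castSucc_or_eq_last i)
    · exact h3 j
    · exact absurd (h ▸ hi) hl
  by_cases hl : Fin.last (m + 1) ∈ I
  · have hc : (Iᶜ).Nonempty := by
      rw [nonempty_iff_ne_empty]
      intro h
      exact hI2 (compl_eq_empty_iff I |>.1 h)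
    have h4 := hpos Iᶜ hc (by rw [mem_compl, not_not]; exact hl)
    have h5 := Finset.sum_add_sum_compl I x
    intro h6
    rw [h6, h2] at h5
    omega
  · exact (hpos I hI hl).ne'

theorem height_le {n : ℕ} {x : Fin n → ℤ} {B : ℝ} (hB : 0 ≤ B)
    (h : ∀ i, ((x i).natAbs : ℝ) ≤ B) : (height x : ℝ) ≤ B := by
  have h1 : height x ≤ ⌊B⌋₊ := Finset.sup_le fun i _ => Nat.le_floor (h i)
  exact (Nat.cast_le.2 h1).trans (Nat.floor_le hB)

theorem finite_tuples (n : ℕ) (A X : ℝ) : (Tuples n A X).Finite := by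
  refine Set.Finite.subset (Finset.finite_toSet
    (Fintype.piFinset fun _ : Fin n => Icc (-(⌊X ^ A⌋₊ : ℤ)) ⌊X ^ A⌋₊)) ?_
  rintro x ⟨-, hB, -⟩
  rw [mem_coe, Fintype.mem_piFinset]
  intro j
  have h3 : (x j).natAbs ≤ ⌊X ^ A⌋₊ := by
    apply Nat.le_floor
    exact le_trans (by exact_mod_cast abs_le_height x j) hB
  rw [mem_Icc]
  omega

theorem result : ∀ n : ℕ, 3 ≤ n → ∀ A : ℝ, (1 : ℝ) / n < A →
    (∀ X : ℝ, (Tuples n A X).Finite) ∧
    (∃ c : ℝ, 0 < c ∧ ∃ C : ℝ, ∃ X₀ : ℝ, ∀ X : ℝ, X₀ ≤ X →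
      c * X ^ (((n : ℝ) - 1) / n) ≤ ((Tuples n A X).ncard : ℝ) ∧
        ((Tuples n A X).ncard : ℝ) ≤ C * X ^ (((n : ℝ) - 1) / n)) ∧
    (∀ M : ℝ, (1 : ℝ) / n < M → ∃ ν : ℝ, 0 < ν ∧ ∃ C : ℝ, ∀ X : ℝ, 1 ≤ X →
      ((Exceptions n A M X).ncard : ℝ) ≤ C * X ^ (((n : ℝ) - 1) / n - ν)) ∧
    (∃ M₀ : ℝ, (1 : ℝ) / n < M₀ ∧ ∀ δ : ℝ, 0 < δ → ∃ X₀ : ℝ, ∀ X : ℝ, X₀ ≤ X →
      ∀ M : ℝ, (1 : ℝ) / n ≤ M → M ≤ M₀ →
        X ^ (1 - M - δ) ≤ ((Exceptions n A M X).ncard : ℝ) ∧
          ((Exceptions n A M X).ncard : ℝ) ≤ X ^ (1 - M + δ)) := by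
  intro n hn A hA
  obtain ⟨m, rfl⟩ : ∃ m, n = m + 2 := ⟨n - 2, by omega⟩
  have hm : 1 ≤ m := by omega
  have hm1 : (1 : ℝ) ≤ m := by exact_mod_cast hm
  have hN0 : (0 : ℝ) < (m : ℝ) + 2 := by positivity
  have e1 : (((m + 2 : ℕ) : ℝ) - 1) / ((m + 2 : ℕ) : ℝ) = ((m : ℝ) + 1) / (m + 2) := by
    push_cast; congr 1; ring
  have e2 : (1 : ℝ) / ((m + 2 : ℕ) : ℝ) = 1 / ((m : ℝ) + 2) := by push_cast; rfl
  have e3 : ((m : ℝ) + 1) / (m + 2) = 1 - 1 / ((m : ℝ) + 2) := by field_simp; ring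
  rw [e1, e2]
  rw [e2] at hA
  obtain ⟨ν, hν, hthr⟩ := Pool.Agent.Y594.NT.thr_upper m hm (max A 1) (le_max_right _ _)
  obtain ⟨Ct, hCt, htot⟩ := Pool.Agent.Y594.NT.tot_upper m hm (max A 1) (le_max_right _ _)
  -- the general upper bound for the exceptions
  have hup : ∀ δ : ℝ, 0 < δ → ∃ C : ℝ, 0 < C ∧ ∀ X : ℝ, 1 ≤ X → ∀ M : ℝ, 0 < M → M ≤ 1 →
      ((Exceptions (m + 2) A M X).ncard : ℝ) ≤
        C * (X ^ (1 - M + δ) + X ^ (((m : ℝ) + 1) / (m + 2) - ν)) := by
    intro δ hδ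
    obtain ⟨C, hC, h⟩ := hthr δ hδ
    refine ⟨C, hC, fun X hX M hM hM1 => ?_⟩
    have hX0 : 0 < X := by linarith
    refine Pool.Agent.Y594.NT.ncard_le _ _ (by positivity) fun E hE => h X hX M hM hM1 E ?_
    intro z hz
    obtain ⟨z1, z2⟩ := hE z hz
    refine ⟨adm (by omega) hX (le_max_left _ _) z1, ?_⟩
    obtain ⟨i, -, hi⟩ := exists_mem_eq_sup univ (univ_nonempty (α := Fin (m + 2)))
      (fun i => (z i).natAbs)
    refine ⟨i, ?_⟩
    rw [← rad_prod]
    have h4 : height z = (z i).natAbs := hi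
    rw [← h4]
    exact z2.le
  refine ⟨finite_tuples _ A, ?_, ?_, ?_⟩
  · obtain ⟨c, hc, X₀, hX₀⟩ := Pool.Agent.Y594.NT.tup_lower m hm ∅
    refine ⟨c, hc, Ct, max X₀ 1, fun X hX => ?_⟩
    have hX1 : 1 ≤ X := (le_max_right _ _).trans hX
    have hX0 : 0 < X := by linarith
    constructor
    · obtain ⟨T, hT, hcard⟩ := hX₀ X ((le_max_left _ _).trans hX)
      refine hcard.trans ?_
      rw [← Set.ncard_coe_finset]
      have hsub : (T : Set (Fin (m + 2) → ℤ)) ⊆ Tuples (m + 2) A X := by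
        intro z hz
        obtain ⟨g1, g2, g3, g4, g5⟩ := hT z hz
        have hadm := admissible_of_pos g1 g2 g3
        refine ⟨hadm, ?_, ?_⟩
        · have h4 := Pool.Agent.Y594.NT.sup_le_of_ht g1 hX0 g4
          exact h4.trans (Real.rpow_le_rpow_of_exponent_le hX1 hA.le)
        · rw [Pool.Agent.Y594.NT.sum_N1] at g5
          have h5 : (0 : ℝ) < ∏ i, (Pool.Agent.Y594.NT.radS ∅ (z i) : ℝ) :=
            prod_pos fun i _ => by
              have := Pool.Agent.Y594.NT.one_le_radS ∅ (z i)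
              linarith
          have h6 := Pool.Agent.Y594.NT.le_of_log_le h5 hX1 g5
          simp only [Pool.Agent.Y594.NT.radS_empty] at h6
          exact h6
      exact_mod_cast Set.ncard_le_ncard hsub (finite_tuples _ A X)
    · exact Pool.Agent.Y594.NT.ncard_le _ _ (by positivity) fun E hE =>
        htot X hX1 E fun z hz => adm (by omega) hX1 (le_max_left _ _) (hE z hz)
  · intro M hM
    -- reduce to an exponent at most one
    obtain ⟨M', hM'⟩ : ∃ M' : ℝ, M' = min M 1 := ⟨_, rfl⟩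
    have hM'1 : M' ≤ 1 := by rw [hM']; exact min_le_right _ _
    have hM'M : M' ≤ M := by rw [hM']; exact min_le_left _ _
    have hM'n : 1 / ((m : ℝ) + 2) < M' := by
      rw [hM']
      apply lt_min hM
      rw [div_lt_one hN0]; linarith
    have hM'0 : 0 < M' := lt_trans (by positivity) hM'n
    obtain ⟨C, hC, h⟩ := hup ((M' - 1 / ((m : ℝ) + 2)) / 2) (by linarith)
    refine ⟨min ν ((M' - 1 / ((m : ℝ) + 2)) / 2), lt_min hν (by linarith), 2 * C, fun X hX => ?_⟩
    have hX0 : 0 < X := by linarith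
    have hsub : Exceptions (m + 2) A M X ⊆ Exceptions (m + 2) A M' X := by
      rintro z ⟨z1, z2⟩
      refine ⟨z1, lt_of_le_of_lt ?_ z2⟩
      apply Real.rpow_le_rpow_of_exponent_le _ hM'M
      have : 0 < rad (∏ i, z i) := Finset.prod_pos fun p hp =>
        (Nat.prime_of_mem_primeFactors hp).pos
      exact_mod_cast this
    have h1 : ((Exceptions (m + 2) A M X).ncard : ℝ) ≤ ((Exceptions (m + 2) A M' X).ncard : ℝ) := by
      exact_mod_cast Set.ncard_le_ncard hsub ((finite_tuples _ A X).subset fun z hz => hz.1)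
    refine h1.trans ((h X hX M' hM'0 hM'1).trans ?_)
    have h2 : X ^ (1 - M' + (M' - 1 / ((m : ℝ) + 2)) / 2) ≤
        X ^ (((m : ℝ) + 1) / (m + 2) - min ν ((M' - 1 / ((m : ℝ) + 2)) / 2)) := by
      apply Real.rpow_le_rpow_of_exponent_le hX
      rw [e3]
      linarith [min_le_right ν ((M' - 1 / ((m : ℝ) + 2)) / 2)]
    have h3 : X ^ (((m : ℝ) + 1) / (m + 2) - ν) ≤
        X ^ (((m : ℝ) + 1) / (m + 2) - min ν ((M' - 1 / ((m : ℝ) + 2)) / 2)) := by
      apply Real.rpow_le_rpow_of_exponent_le hX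
      linarith [min_le_left ν ((M' - 1 / ((m : ℝ) + 2)) / 2)]
    calc C * (X ^ (1 - M' + (M' - 1 / ((m : ℝ) + 2)) / 2) + X ^ (((m : ℝ) + 1) / (m + 2) - ν))
        ≤ C * (X ^ (((m : ℝ) + 1) / (m + 2) - min ν ((M' - 1 / ((m : ℝ) + 2)) / 2)) +
            X ^ (((m : ℝ) + 1) / (m + 2) - min ν ((M' - 1 / ((m : ℝ) + 2)) / 2))) :=
          mul_le_mul_of_nonneg_left (add_le_add h2 h3) hC.le
      _ = _ := by ring
  · -- near the threshold
    obtain ⟨g, hg⟩ : ∃ g : ℝ, g = min ((A - 1 / ((m : ℝ) + 2)) / 2)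
      ((1 / ((m : ℝ) + 1) - 1 / ((m : ℝ) + 2)) / 2) := ⟨_, rfl⟩
    have hg0 : 0 < g := by
      rw [hg]
      apply lt_min (by linarith)
      have : 1 / ((m : ℝ) + 2) < 1 / ((m : ℝ) + 1) :=
        one_div_lt_one_div_of_lt (by positivity) (by linarith)
      linarith
    have hg1 : 1 / ((m : ℝ) + 2) + 2 * g ≤ A := by
      have : g ≤ (A - 1 / ((m : ℝ) + 2)) / 2 := by rw [hg]; exact min_le_left _ _
      linarith
    have hg2 : 1 / ((m : ℝ) + 2) + 2 * g ≤ 1 / ((m : ℝ) + 1) := by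
      have : g ≤ (1 / ((m : ℝ) + 1) - 1 / ((m : ℝ) + 2)) / 2 := by rw [hg]; exact min_le_right _ _
      linarith
    have hm1' : 1 / ((m : ℝ) + 1) ≤ 1 := by rw [div_le_one (by positivity)]; linarith
    refine ⟨1 / ((m : ℝ) + 2) + min ν g, by linarith [lt_min hν hg0], fun δ hδ => ?_⟩
    obtain ⟨C, hC, h⟩ := hup (δ / 2) (by linarith)
    obtain ⟨d, hd⟩ : ∃ d : ℝ, d = min (δ / 2) (g / 2) := ⟨_, rfl⟩
    have hd0 : 0 < d := by rw [hd]; exact lt_min (by linarith) (by linarith)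
    have hd1 : d ≤ δ / 2 := by rw [hd]; exact min_le_left _ _
    have hd2 : d ≤ g / 2 := by rw [hd]; exact min_le_right _ _
    obtain ⟨X₁, hX₁, hlow⟩ := Pool.Agent.Y500.NT2.lown m hm d hd0
    refine ⟨max (max X₁ 2) ((2 * C) ^ (2 / δ)), fun X hX M hM1 hM2 => ?_⟩
    have hXX₁ : X₁ ≤ X := ((le_max_left _ _).trans (le_max_left _ _)).trans hX
    have hX2 : 2 ≤ X := ((le_max_right _ _).trans (le_max_left _ _)).trans hX
    have hX1 : 1 ≤ X := by linarith
    have hX0 : 0 < X := by linarith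
    have hM0 : 0 < M := lt_of_lt_of_le (by positivity) hM1
    have hMg : M ≤ 1 / ((m : ℝ) + 2) + g := hM2.trans (by linarith [min_le_right ν g])
    have hMν : M ≤ 1 / ((m : ℝ) + 2) + ν := hM2.trans (by linarith [min_le_left ν g])
    constructor
    · obtain ⟨T, hT, hcard⟩ := hlow X hXX₁ (M + d) (by linarith) (by linarith)
      have h1 : X ^ (1 - M - δ) ≤ X ^ (1 - (M + d) - d) := by
        apply Real.rpow_le_rpow_of_exponent_le hX1
        linarith
      refine h1.trans (hcard.trans ?_)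
      rw [← Set.ncard_coe_finset]
      have hsub : (T : Set (Fin (m + 2) → ℤ)) ⊆ Exceptions (m + 2) A M X := by
        intro z hz
        obtain ⟨g1, g2, g3, g4, ⟨i, g5⟩, g6⟩ := hT z hz
        have hadm := admissible_of_pos g1 g2 g3
        have hne := ne_zero (by omega : 3 ≤ m + 2) hadm
        refine ⟨⟨hadm, ?_, g4⟩, ?_⟩
        · refine (height_le (by positivity) g6).trans ?_
          apply Real.rpow_le_rpow_of_exponent_le hX1
          linarith
        · have h2 : (rad (∏ i, z i) : ℝ) ≤ X := by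
            refine le_trans ?_ g4
            rw [rad_prod]
            have h3 : Pool.Agent.H785R2.ABC.rad (∏ i, (z i).natAbs) ∣
                ∏ i, Pool.Agent.H785R2.ABC.rad (z i).natAbs := by
              apply Pool.Agent.Y594.NT.rad_dvd_of
              intro p hp hpd
              obtain ⟨j, -, hj⟩ := (Nat.Prime.prime hp).exists_mem_finset_dvd hpd
              exact (Pool.Agent.Y594.NT.prime_dvd_rad (Int.natAbs_ne_zero.2 (hne j)) hp hj).trans
                (Finset.dvd_prod_of_mem _ (mem_univ j))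
            have h4 := Nat.le_of_dvd (Finset.prod_pos fun j _ =>
              Pool.Agent.H785R2.ABC.rad_pos' _) h3
            exact_mod_cast h4
          calc (rad (∏ i, z i) : ℝ) ^ M ≤ X ^ M :=
                Real.rpow_le_rpow (Nat.cast_nonneg _) h2 hM0.le
            _ < X ^ (M + d) := Real.rpow_lt_rpow_of_exponent_lt (by linarith) (by linarith)
            _ ≤ ((z i).natAbs : ℝ) := g5
            _ ≤ (height z : ℝ) := by exact_mod_cast abs_le_height z i
      exact_mod_cast Set.ncard_le_ncard hsub ((finite_tuples _ A X).subset fun z hz => hz.1)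
    · refine (h X hX1 M hM0 (by linarith)).trans ?_
      have h1 : X ^ (((m : ℝ) + 1) / (m + 2) - ν) ≤ X ^ (1 - M + δ / 2) := by
        apply Real.rpow_le_rpow_of_exponent_le hX1
        rw [e3]
        linarith
      have h2 : 2 * C ≤ X ^ (δ / 2) := by
        have h3 : (2 * C) ^ (2 / δ) ≤ X := (le_max_right _ _).trans hX
        calc 2 * C = ((2 * C) ^ (2 / δ)) ^ (δ / 2) := by
              rw [← Real.rpow_mul (by positivity)]
              have : 2 / δ * (δ / 2) = 1 := by field_simp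
              rw [this, Real.rpow_one]
          _ ≤ X ^ (δ / 2) := Real.rpow_le_rpow (by positivity) h3 (by positivity)
      calc C * (X ^ (1 - M + δ / 2) + X ^ (((m : ℝ) + 1) / (m + 2) - ν))
          ≤ C * (X ^ (1 - M + δ / 2) + X ^ (1 - M + δ / 2)) :=
            mul_le_mul_of_nonneg_left (by linarith) hC.le
        _ = 2 * C * X ^ (1 - M + δ / 2) := by ring
        _ ≤ X ^ (δ / 2) * X ^ (1 - M + δ / 2) := mul_le_mul_of_nonneg_right h2 (by positivity)
        _ = X ^ (1 - M + δ) := by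
            rw [← Real.rpow_add hX0]
            congr 1
            ring

end Pool.Agent.Results.MP_a95293_nt.ExactExponentOfExceptions
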