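import Mathlib
import Pool.Agent.Y902.GN.Camp
import Pool.Agent.Y902.GN.FinB

/-!
# The n-term abc equation with few bases: the parts with large exponents take few values

For all `n`, `N` and `ε > 0` there are `R` and `δ > 0` such that for every `X ≥ 1` the following holds.
Consider all admissible `n`-tuples `a` (coprime, with sum zero, without vanishing proper partial sum)
with `|a i| ≤ exp (X ^ δ)` which are products of powers of `N` pairwise coprime integers `x j ≤ X`, and
let `A i` be the product of those powers in `a i` whose exponent is at least `R`. Then `A` takes at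
most `X ^ ε` values altogether. (If at most `N` primes divide the product of the `a i` and they are
`≤ X` one may take these primes for the `x j`; then `A i` is the `R`-full part of `a i`.) The
complementary factor of `a i` is at most `X ^ (R * N)`, so all tuples with `max |a i|` larger than this
power of `X` come from at most `X ^ ε` vectors `A`.

Method: ultraproduct of counterexamples, `p`-adic determinant method with unbounded exponents as
coefficients, isotypic decomposition of the differential module of relations between the terms.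
-/

set_option autoImplicit false

namespace Pool.Agent.Results.MP_a95293_nt.LargeParts

/-- admissible `n`-tuples: coprime integers with sum zero and no vanishing proper partial sum -/
def Admissible {n : ℕ} (a : Fin n → ℤ) : Prop :=
  Finset.univ.gcd a = 1 ∧ ∑ i, a i = 0 ∧
    ∀ K : Finset (Fin n), K.Nonempty → K ≠ Finset.univ → ∑ i ∈ K, a i ≠ 0

/-- the vectors `A` of the parts with exponents at least `R` of the admissible `n`-tuples `a` with
`|a i| ≤ exp (X ^ δ)` that are, up to signs, products of powers of `N` pairwise coprime positive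
integers `≤ X` -/
def LargePartsOf (n N R X : ℕ) (δ : ℝ) : Set (Fin n → ℕ) :=
  {A | ∃ (a : Fin n → ℤ) (x : Fin N → ℕ) (e : Fin n → Fin N → ℕ), Admissible a ∧
    (∀ i, ((|a i| : ℤ) : ℝ) ≤ Real.exp ((X : ℝ) ^ δ)) ∧ (∀ j, 1 ≤ x j ∧ x j ≤ X) ∧
    (∀ j k, j ≠ k → Nat.Coprime (x j) (x k)) ∧ (∀ i, (a i).natAbs = ∏ j, x j ^ e i j) ∧
    ∀ i, A i = ∏ j, if R ≤ e i j then x j ^ e i j else 1}

/-- For all `n`, `N` and `ε > 0` there are `R` and `δ > 0` such that `LargePartsOf n N R X δ` has at
most `X ^ ε` elements for every `X ≥ 1`. -/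
theorem result (n N : ℕ) (ε : ℝ) (hε : 0 < ε) : ∃ (R : ℕ) (δ : ℝ), 0 < δ ∧
    ∀ X : ℕ, 1 ≤ X → (LargePartsOf n N R X δ).Finite ∧
      ((LargePartsOf n N R X δ).ncard : ℝ) ≤ (X : ℝ) ^ ε := by
  obtain ⟨R, δ, hδ, h⟩ := Pool.Agent.Y902.GN.lp n N 0 ε hε
  refine ⟨R, δ, hδ, fun X hX => ?_⟩
  refine Pool.Agent.Y902.GN.fin_of_bound _ _ fun T hT => ?_
  refine h X hX (fun _ => 1) (fun i => ⟨one_ne_zero, ?_⟩) T fun A hA => ?_
  · rw [abs_one, Int.cast_one]
    exact Real.one_le_exp (by positivity)
  · obtain ⟨a, x, e, ⟨h1, h2, h3⟩, h4, h5, h6, h7, h8⟩ := hT A hA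
    obtain ⟨M, hM⟩ : ∃ M : ℕ, ∀ i, ∏ j, (if R ≤ e i j then 1 else x j ^ e i j) ≤ M :=
      ⟨∑ i, ∏ j, (if R ≤ e i j then 1 else x j ^ e i j), fun i =>
        Finset.single_le_sum (f := fun i => ∏ j, (if R ≤ e i j then 1 else x j ^ e i j))
          (fun _ _ => Nat.zero_le _) (Finset.mem_univ i)⟩
    have h9 : Pool.Agent.Y902.GN.RepGood n N R δ X M (fun _ => 1) a x e :=
      ⟨h5, h6, h7, h1, by simpa using h2, by simpa using h3, h4, hM⟩
    have h10 : A = fun i => ∏ j, if R ≤ e i j then x j ^ e i j else 1 := funext h8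
    rw [h10]
    exact ⟨a, _, x, e, h9.lp⟩

end Pool.Agent.Results.MP_a95293_nt.LargeParts
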