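import Pool.Agent.Results.MP_a95293_nt.FewExceptions
import Pool.Agent.Y854.GM.Win

/-!
# The n-term abc inequality without exceptions in short windows around thin sequences

Let `v ≥ 1` be a sequence with exponent of convergence at most `τ` (for `v_k = k ^ κ` this is `1 / κ`, for `v_k = b ^ k`
or `k!` it is `0`), `n ≥ 3`, `M > 0`, `A ≥ 1` and `0 ≤ θ < 1`. For all `α > 0` outside a set of Hausdorff dimension at
most `(A (1 - 1 / binom(n, ⌊n/2⌋)) / M + τ) / (1 - θ)` and all but finitely many `k`, EVERY admissible `n`-tuple `x`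
with a member in the window, `||x_i| - α v_k| ≤ v_k ^ θ`, and with `max |x_j| ≤ |x_i| ^ A` satisfies
`max |x_j| ≤ rad(x_1 ⋯ x_n) ^ M`. In particular this is true for `M = 1`. For tuples with pairwise coprime members
`binom(n, ⌊n/2⌋)` can be replaced by `n`.
-/

set_option autoImplicit false

namespace Pool.Agent.Results.MP_a95293_nt.WindowsWithoutExceptions

open Finset

/-- An admissible `n`-tuple: coprime integers with sum zero and no vanishing proper sub-sum. -/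
def Admissible {n : ℕ} (x : Fin n → ℤ) : Prop :=
  Finset.univ.gcd x = 1 ∧ ∑ i, x i = 0 ∧
    ∀ I : Finset (Fin n), I.Nonempty → I ≠ Finset.univ → ∑ i ∈ I, x i ≠ 0

/-- The radical of `x_1 ⋯ x_n`: the product of the primes dividing it. -/
def rad {n : ℕ} (x : Fin n → ℤ) : ℕ := ∏ p ∈ (∏ i, x i).natAbs.primeFactors, p

/-- the exponent of convergence of the sequence `v` is at most `τ` -/
def ExpLe (v : ℕ → ℝ) (τ : ℝ) : Prop := ∀ t : ℝ, τ < t → Summable (fun n : ℕ => (v n) ^ (-t))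

/-- the exceptional tuples with a distinguished member -/
def Exc (n : ℕ) (M A : ℝ) : Set ((Fin n → ℤ) × Fin n) :=
  {z | Admissible z.1 ∧ (∀ j, |(z.1 j : ℝ)| ≤ |(z.1 z.2 : ℝ)| ^ A) ∧ ∃ j, ((rad z.1 : ℕ) : ℝ) ^ M < |(z.1 j : ℝ)|}

/-- the same for pairwise coprime members -/
def ExcC (n : ℕ) (M A : ℝ) : Set ((Fin n → ℤ) × Fin n) :=
  {z | z ∈ Exc n M A ∧ ∀ i j, i ≠ j → IsCoprime (z.1 i) (z.1 j)}

lemma count_of (n : ℕ) (A s : ℝ) (hA : 1 ≤ A) (hs : 0 ≤ s) (S : Set ((Fin n → ℤ) × Fin n))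
    (F : ℝ → Set (Fin n → ℤ)) (hF : ∀ δ : ℝ, 0 < δ → ∃ C : ℝ, ∀ B : ℝ, 1 ≤ B → (F B).Finite ∧
      ((F B).ncard : ℝ) ≤ C * B ^ (s + δ))
    (hS : ∀ z ∈ S, ∀ X : ℝ, 1 ≤ X → |(z.1 z.2 : ℝ)| ≤ X → z.1 ∈ F (X ^ A)) (ε : ℝ) (hε : 0 < ε) :
    ∃ C : ℝ, ∀ X : ℝ, 1 ≤ X → {z | z ∈ S ∧ |((z.1 z.2 : ℤ) : ℝ)| ≤ X}.Finite ∧
      ({z | z ∈ S ∧ |((z.1 z.2 : ℤ) : ℝ)| ≤ X}.ncard : ℝ) ≤ C * X ^ (A * s + ε) := by
  have hA0 : 0 < A := by linarith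
  obtain ⟨C, hC⟩ := hF (ε / A) (by positivity)
  refine ⟨|C| * n, fun X hX => ?_⟩
  have hX0 : 0 < X := by linarith
  obtain ⟨hfin, hcard⟩ := hC (X ^ A) (Real.one_le_rpow hX hA0.le)
  have hsub : {z | z ∈ S ∧ |((z.1 z.2 : ℤ) : ℝ)| ≤ X} ⊆ (F (X ^ A)) ×ˢ (Set.univ : Set (Fin n)) := by
    rintro z ⟨hz, hzX⟩
    exact ⟨hS z hz X hX hzX, Set.mem_univ _⟩
  have hfin2 : ((F (X ^ A)) ×ˢ (Set.univ : Set (Fin n))).Finite := hfin.prod Set.finite_univ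
  refine ⟨hfin2.subset hsub, ?_⟩
  have h1 : {z | z ∈ S ∧ |((z.1 z.2 : ℤ) : ℝ)| ≤ X}.ncard ≤ (F (X ^ A)).ncard * n := by
    have h2 := Set.ncard_le_ncard hsub hfin2
    rwa [Set.ncard_prod, Set.ncard_univ, Nat.card_eq_fintype_card, Fintype.card_fin] at h2
  have h3 : ({z | z ∈ S ∧ |((z.1 z.2 : ℤ) : ℝ)| ≤ X}.ncard : ℝ) ≤ ((F (X ^ A)).ncard : ℝ) * n := by
    exact_mod_cast h1
  have h4 : (X ^ A) ^ (s + ε / A) = X ^ (A * s + ε) := by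
    rw [← Real.rpow_mul hX0.le]
    congr 1
    field_simp
  rw [h4] at hcard
  have hn : (0 : ℝ) ≤ n := Nat.cast_nonneg n
  calc ({z | z ∈ S ∧ |((z.1 z.2 : ℤ) : ℝ)| ≤ X}.ncard : ℝ) ≤ ((F (X ^ A)).ncard : ℝ) * n := h3
    _ ≤ (C * X ^ (A * s + ε)) * n := mul_le_mul_of_nonneg_right hcard hn
    _ ≤ (|C| * X ^ (A * s + ε)) * n :=
        mul_le_mul_of_nonneg_right (mul_le_mul_of_nonneg_right (le_abs_self C) (by positivity)) hn
    _ = |C| * n * X ^ (A * s + ε) := by ring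

lemma choose_ge (n : ℕ) : (1 : ℝ) ≤ (n.choose (n / 2) : ℝ) := by
  have : 0 < n.choose (n / 2) := Nat.choose_pos (Nat.div_le_self n 2)
  exact_mod_cast this

lemma exp_nonneg {N M : ℝ} (hN : 1 ≤ N) (hM : 0 < M) : 0 ≤ (1 - 1 / N) / M := by
  apply div_nonneg _ hM.le
  rw [sub_nonneg, div_le_one (by linarith)]
  exact hN

lemma mem_exceptions {n : ℕ} {M A : ℝ} (hA : 1 ≤ A) {z : (Fin n → ℤ) × Fin n} (hz : z ∈ Exc n M A) {X : ℝ}
    (hzX : |(z.1 z.2 : ℝ)| ≤ X) : z.1 ∈ FewExceptions.exceptions n M (X ^ A) := by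
  obtain ⟨h1, h2, j, h3⟩ := hz
  refine ⟨h1, fun i => (h2 i).trans (Real.rpow_le_rpow (abs_nonneg _) hzX (by linarith)), j, h3⟩

/-- **Theorem.** Let `n ≥ 3`, `M > 0`, `A ≥ 1`, `0 ≤ θ < 1` and let `v ≥ 1` be a sequence of exponent of convergence at
most `τ ≥ 0`.
(1) There is a set `E` of Hausdorff dimension at most `(A (1 - 1 / binom(n, ⌊n/2⌋)) / M + τ) / (1 - θ)` such that for
each `α > 0` outside `E`, for all but finitely many `k`, all admissible `n`-tuples `x` with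
`||x_i| - α v_k| ≤ v_k ^ θ` and `max |x_j| ≤ |x_i| ^ A` for some `i` satisfy `max |x_j| ≤ rad(x_1 ⋯ x_n) ^ M`.
(2) For tuples with pairwise coprime members this holds with `(A (1 - 1 / n) / M + τ) / (1 - θ)`.
(3) The sequences `v_k = (k + 1) ^ κ` and `v_k = b ^ k` have exponent of convergence at most `1 / κ` and `0`. -/
theorem result :
    (∀ (n : ℕ) (M A θ τ : ℝ) (v : ℕ → ℝ), 3 ≤ n → 0 < M → 1 ≤ A → (∀ k, 1 ≤ v k) → 0 ≤ τ → ExpLe v τ → 0 ≤ θ → θ < 1 →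
      (∃ E : Set ℝ, dimH E ≤ ENNReal.ofReal ((A * ((1 - 1 / (n.choose (n / 2) : ℝ)) / M) + τ) / (1 - θ)) ∧
        ∀ α : ℝ, 0 < α → α ∉ E → ∃ k₀ : ℕ, ∀ k : ℕ, k₀ ≤ k → ∀ (x : Fin n → ℤ) (i : Fin n), Admissible x →
          |(|x i| : ℝ) - α * v k| ≤ (v k) ^ θ → (∀ j, |(x j : ℝ)| ≤ |(x i : ℝ)| ^ A) →
            ∀ j, |(x j : ℝ)| ≤ ((rad x : ℕ) : ℝ) ^ M) ∧
      (∃ E : Set ℝ, dimH E ≤ ENNReal.ofReal ((A * ((1 - 1 / (n : ℝ)) / M) + τ) / (1 - θ)) ∧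
        ∀ α : ℝ, 0 < α → α ∉ E → ∃ k₀ : ℕ, ∀ k : ℕ, k₀ ≤ k → ∀ (x : Fin n → ℤ) (i : Fin n), Admissible x →
          (∀ i j, i ≠ j → IsCoprime (x i) (x j)) →
          |(|x i| : ℝ) - α * v k| ≤ (v k) ^ θ → (∀ j, |(x j : ℝ)| ≤ |(x i : ℝ)| ^ A) →
            ∀ j, |(x j : ℝ)| ≤ ((rad x : ℕ) : ℝ) ^ M)) ∧
    (∀ κ : ℝ, 0 < κ → ExpLe (fun n : ℕ => ((n : ℝ) + 1) ^ κ) (1 / κ)) ∧
    (∀ b : ℝ, 1 < b → ExpLe (fun n : ℕ => b ^ n) 0) := by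
  refine ⟨fun n M A θ τ v hn hM hA hv hτ hE hθ hθ1 => ⟨?_, ?_⟩,
    fun κ hκ => Pool.Agent.Y854.GM.expLe_pow κ hκ, fun b hb => Pool.Agent.Y854.GM.expLe_geom b hb⟩
  · have hs := exp_nonneg (choose_ge n) hM
    obtain ⟨E, h2, h3⟩ := Pool.Agent.Y854.GM.windows (Exc n M A) (fun z => |((z.1 z.2 : ℤ) : ℝ)|) hv hτ hE
      (s := A * ((1 - 1 / (n.choose (n / 2) : ℝ)) / M)) (mul_nonneg (by linarith) hs) hθ1
      (count_of n A _ hA hs (Exc n M A) (FewExceptions.exceptions n M)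
        (fun δ hδ => (FewExceptions.result n hn M δ hM hδ).1) (fun z hz X _ hzX => mem_exceptions hA hz hzX))
    refine ⟨E, h2, fun α hα hαE => ?_⟩
    obtain ⟨k₀, hk⟩ := h3 α hα hαE
    refine ⟨k₀, fun k hk1 x i hx hw hxA j => ?_⟩
    by_contra hcon
    push Not at hcon
    exact absurd (hk k hk1 (x, i) ⟨hx, hxA, j, hcon⟩) (not_lt.2 hw)
  · have hn1 : (1 : ℝ) ≤ (n : ℝ) := by exact_mod_cast (by omega : 1 ≤ n)
    have hs := exp_nonneg hn1 hM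
    obtain ⟨E, h2, h3⟩ := Pool.Agent.Y854.GM.windows (ExcC n M A) (fun z => |((z.1 z.2 : ℤ) : ℝ)|) hv hτ hE
      (s := A * ((1 - 1 / (n : ℝ)) / M)) (mul_nonneg (by linarith) hs) hθ1
      (count_of n A _ hA hs (ExcC n M A)
        (fun B => {x ∈ FewExceptions.exceptions n M B | ∀ i j, i ≠ j → IsCoprime (x i) (x j)})
        (fun δ hδ => by
          obtain ⟨C1, h1⟩ := (FewExceptions.result n hn M δ hM hδ).1
          obtain ⟨C2, h4⟩ := (FewExceptions.result n hn M δ hM hδ).2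
          exact ⟨C2, fun B hB => ⟨(h1 B hB).1.subset (fun x hx => hx.1), h4 B hB⟩⟩)
        (fun z hz X _ hzX => ⟨mem_exceptions hA hz.1 hzX, hz.2⟩))
    refine ⟨E, h2, fun α hα hαE => ?_⟩
    obtain ⟨k₀, hk⟩ := h3 α hα hαE
    refine ⟨k₀, fun k hk1 x i hx hcop hw hxA j => ?_⟩
    by_contra hcon
    push Not at hcon
    exact absurd (hk k hk1 (x, i) ⟨⟨hx, hxA, j, hcon⟩, hcop⟩) (not_lt.2 hw)

end Pool.Agent.Results.MP_a95293_nt.WindowsWithoutExceptions
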